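import Pool.Agent.U536.CF.F
import Pool.Agent.Results.MP_dee342_nt.MultiplicativeValues

/-!
# Cycles of the maps `T_{a,b}` near integers with a large common factor with a value of a multiplicative function

Let `f` be a positive multiplicative function of at most polynomial growth such that `f p ≤ M p` for the large primes `p`,
with different values at different large primes; for example Euler's function or the sum of the divisors. Let `G` have
steps bounded below by a positive constant and growth at most `v^d`, for example `α v^d`. Let `b < 1` and `0 ≤ c < 2 b -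
1`. For all `m ≤ N` but `N exp (-(log N)^c)`, for EVERY integer `w ≥ exp ((log N)^b)` with `gcd(w, f(m)) ≥ w^ρ`, (1) no
cycle of the `3x+1` map on the integers has a number of elements within `w ^ κ` of `G w`; (2) no cycle of `T_{a,q}` on the
integers has its largest element in absolute value within `w ^ κ` of `G w`, if `κ ≥ 0`, `ρ ≤ 1` and (1) `12 d / 13 + κ <
ρ`; (2) `a ≥ 3`, `q` odd and `d H(a) + κ ≤ ρ`, `H(a) < 1` the entropy of `log 2 / log a`. The integers `w` include all
large divisors of `f(m)` and their multiples by small integers; for Euler's function, the orders of the elements of the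
group of units modulo `m`.

Proof. Write `m = k u` with `u` squarefree and composed of primes larger than `N^(1/J)`, `J = (log N)^a`, and `k ≤ exp (4
(log N)^a)`; this is possible for all `m ≤ N` but very few. If `v ∣ f(k) f(u)`, then `v = g v'` with `g ∣ f(k)` and `v' ∣
∏ f(p)`, and the number of such `u ≤ N / k` is at most `N / (k v')` times `(log N)^O(J)` times the number `τ_J(v')` of the
ordered factorizations of `v'` into `J` factors. The inequality `τ_J^q ≤ τ_K` for `K ≥ J^q` and Hölder's inequality bound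
the sum over the sparse set of the exceptional `v`. The file `MultiplicativeValues` of the starting library treats the
integers `w = f(m)`, with `N / (log N)^U` exceptions.
-/

set_option autoImplicit false

namespace Pool.Agent.Results.MP_dee342_nt.CommonFactors

open Finset
open Pool.Agent.N733.TG (LM Expanding lm_totient lm_sigma expanding_pow)
open Pool.Agent.U536.CF (Common common_windows common_win_nat common_of_dvd common_order)
open Pool.Agent.Results.MP_dee342_nt.MultiplicativeValues (IsCycle top entropy lengths_count cycles_finite le_top)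

/-- **Cycles of the maps `T_{a,b}` near integers with a large common factor with a value of a multiplicative function.** Let
`f` be multiplicative and positive, of at most polynomial growth, with `f p ≤ M p` at the large primes, and injective
there. Let `G` have steps `≥ a > 0` and growth at most `v^d`. Let `b < 1` and `0 ≤ c < 2 b - 1`, `κ ≥ 0`, `ρ ≤ 1` and (1)
`12 d / 13 + κ < ρ`; (2) `a ≥ 3`, `q` odd and `d H(a) + κ ≤ ρ`, `H(a) < 1` the entropy of `log 2 / log a`. For all large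
`N`, for all `m ≤ N` but `N exp (-(log N)^c)`, for EVERY integer `w ≥ exp ((log N)^b)` with `gcd(w, f(m)) ≥ w^ρ`, (1) no
cycle of the `3x+1` map on the integers has a number of elements within `w ^ κ` of `G w`; (2) no cycle of `T_{a,q}` on the
integers has its largest element in absolute value within `w ^ κ` of `G w`. All divisors `w ≥ exp ((log N)^b)` of `f(m)`
are such integers `w`, and for Euler's function the orders `≥ exp ((log N)^b)` of the units modulo `m`. Euler's function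
and the sum of the divisors are examples of `f`, and `α v^d` with `α > 0`, `d ≥ 1` is an example of `G`. -/
theorem result :
    (∀ f : ℕ → ℕ, LM f → ∀ (G : ℕ → ℝ) (d : ℝ), Expanding G d → ∀ κ ρ b c : ℝ, 0 ≤ κ → ρ ≤ 1 → b < 1 → 0 ≤ c →
      c < 2 * b - 1 →
      (12 / 13 * d + κ < ρ → ∃ N₀ : ℕ, ∀ N : ℕ, N₀ ≤ N →
        ({m : ℕ | 1 ≤ m ∧ m ≤ N ∧ ∃ w : ℕ, Common f b ρ N m w ∧
          ∃ Z : Finset ℤ, IsCycle 3 1 Z ∧ |(Z.card : ℝ) - G w| ≤ (w : ℝ) ^ κ}.ncard : ℝ) ≤
          N * Real.exp (-(Real.log N ^ c))) ∧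
      (∀ (a : ℕ) (q : ℤ), 3 ≤ a → a % 2 = 1 → q % 2 = 1 → entropy a * d + κ ≤ ρ → ∃ N₀ : ℕ, ∀ N : ℕ, N₀ ≤ N →
        ({m : ℕ | 1 ≤ m ∧ m ≤ N ∧ ∃ w : ℕ, Common f b ρ N m w ∧
          ∃ Z : Finset ℤ, IsCycle a q Z ∧ |(top Z : ℝ) - G w| ≤ (w : ℝ) ^ κ}.ncard : ℝ) ≤
          N * Real.exp (-(Real.log N ^ c)))) ∧
    (LM Nat.totient ∧ LM (fun m => ∑ d ∈ m.divisors, d)) ∧
    (∀ α d : ℝ, 0 < α → 1 ≤ d → Expanding (fun v => α * (v : ℝ) ^ d) d) ∧
    (∀ (f : ℕ → ℕ) (b ρ : ℝ) (N m w : ℕ), ρ ≤ 1 → Real.exp (Real.log N ^ b) ≤ (w : ℝ) → w ∣ f m → Common f b ρ N m w) ∧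
    ∀ (b ρ : ℝ) (N m : ℕ), ρ ≤ 1 → ∀ x : (ZMod m)ˣ, Real.exp (Real.log N ^ b) ≤ (orderOf x : ℝ) →
      Common Nat.totient b ρ N m (orderOf x) := by
  refine ⟨?_, ⟨lm_totient, lm_sigma⟩, fun α d hα hd => expanding_pow hα hd, fun f b ρ N m w hρ hw hd => common_of_dvd hρ hw hd,
    fun b ρ N m hρ x hx => common_order hρ x hx⟩
  refine fun f hf G d hG κ ρ b c hκ hρ hb hc hcb => ⟨fun h1 => ?_, fun a q ha ha2 hq h1 => ?_⟩
  · obtain ⟨C, hC⟩ := lengths_count
    obtain ⟨N₀, hN₀⟩ := common_win_nat {p : ℕ | ∃ Z : Finset ℤ, IsCycle 3 1 Z ∧ Z.card = p} hf hG (s := 12 / 13) (κ := κ)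
      (by norm_num) hκ (by linarith) hρ hb hc hcb (fun ε hε => ⟨|C|, fun X hX => by
        refine (hC X hX).trans ((mul_le_mul_of_nonneg_right (le_abs_self C) (by positivity)).trans ?_)
        exact mul_le_mul_of_nonneg_left
          (Real.rpow_le_rpow_of_exponent_le (by exact_mod_cast hX) (by linarith)) (abs_nonneg C)⟩)
    refine ⟨N₀, fun N hN => le_trans ?_ (hN₀ N hN)⟩
    have hfin : {m : ℕ | 1 ≤ m ∧ m ≤ N ∧ ∃ w : ℕ, Common f b ρ N m w ∧
        ∃ n : ℕ, (n = 0 ∨ n ∈ {p : ℕ | ∃ Z : Finset ℤ, IsCycle 3 1 Z ∧ Z.card = p}) ∧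
        |(n : ℝ) - G w| ≤ (w : ℝ) ^ κ}.Finite :=
      (Set.finite_Icc 1 N).subset (fun m hm => ⟨hm.1, hm.2.1⟩)
    have hsub : {m : ℕ | 1 ≤ m ∧ m ≤ N ∧ ∃ w : ℕ, Common f b ρ N m w ∧
          ∃ Z : Finset ℤ, IsCycle 3 1 Z ∧ |(Z.card : ℝ) - G w| ≤ (w : ℝ) ^ κ} ⊆
        {m : ℕ | 1 ≤ m ∧ m ≤ N ∧ ∃ w : ℕ, Common f b ρ N m w ∧
          ∃ n : ℕ, (n = 0 ∨ n ∈ {p : ℕ | ∃ Z : Finset ℤ, IsCycle 3 1 Z ∧ Z.card = p}) ∧
          |(n : ℝ) - G w| ≤ (w : ℝ) ^ κ} := by
      rintro m ⟨h2, h3, w, hw, Z, h4, h5⟩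
      exact ⟨h2, h3, w, hw, Z.card, Or.inr ⟨Z, h4, rfl⟩, h5⟩
    exact_mod_cast Set.ncard_le_ncard hsub hfin
  · obtain ⟨η, hη0, hη, hH, hh⟩ := CyclesBelowEntropy.result a ha ha2
    obtain ⟨C, hC0, hC⟩ := hh q hq
    have hd := hG.one_le
    obtain ⟨N₀, hN₀⟩ := common_windows {Z : Finset ℤ | IsCycle a q Z} (fun Z => (top Z : ℝ)) hf hG (s := η) (κ := κ)
      hη0.le hκ (by
        have : η < entropy a := hη
        nlinarith) hρ hb hc hcb (fun ε hε => ⟨C, fun X hX => by
        have hsub : {Z : Finset ℤ | Z ∈ {Z : Finset ℤ | IsCycle a q Z} ∧ (top Z : ℝ) ≤ X} ⊆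
            {c : Finset ℤ | CyclesBelowEntropy.IsCycle (CyclesBelowEntropy.T a q) c ∧ ∀ x ∈ c, |(x : ℝ)| ≤ X} := by
          rintro Z ⟨h2, h3⟩
          refine ⟨h2, fun x hx => (le_top hx).trans h3⟩
        have hfin := cycles_finite (CyclesBelowEntropy.T a q) X
        refine ⟨hfin.subset hsub, ?_⟩
        have h4 := Set.ncard_le_ncard hsub hfin
        have h5 : (({Z : Finset ℤ | Z ∈ {Z : Finset ℤ | IsCycle a q Z} ∧ (top Z : ℝ) ≤ X}.ncard : ℕ) : ℝ) ≤
            ({c : Finset ℤ | CyclesBelowEntropy.IsCycle (CyclesBelowEntropy.T a q) c ∧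
              ∀ x ∈ c, |(x : ℝ)| ≤ X}.ncard : ℝ) := by exact_mod_cast h4
        refine h5.trans ((hC X hX).trans ?_)
        exact mul_le_mul_of_nonneg_left (Real.rpow_le_rpow_of_exponent_le hX (by linarith)) hC0.le⟩)
    exact ⟨N₀, fun N hN => hN₀ N hN⟩

end Pool.Agent.Results.MP_dee342_nt.CommonFactors
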