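import Mathlib
import Pool.Agent.U773.PW.TmC

/-!
# Powers and smooth parts in the cycles of the maps `T_{a,b}`

Let `a ≥ 1` be odd, `S` a finite set of primes and `e ≥ 1`. We consider the integers `x = u y ^ e`
where `u` is composed of the primes of `S`: for `e = 1` these are all integers, and `|y| ≤ Y` is
possible if and only if the part of `x` prime to `S` is at most `Y`; for `e = 2` (`3`, ...) they are
the squares (cubes, ...) times `S`-units.

Let `κ, β ≥ 0`, `κ + β < 1`. We consider the cycles `Z` of the maps `T_{a,b}` (`b` odd) all of whose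
elements have absolute value at least `μ`, where `|b| ≤ μ ^ β` (`b = 1` for the maps `T_3` and
`T_5`; the cycles of `T_{a,b}` are the cycles of `T_{a,1}` in the rational numbers with denominator
`b`).

(1) For every `A` and all large `μ`, among at most `A log μ` successive elements of such a cycle at
most `(⌊κ / (1 - κ - β)⌋ + 1) ^ 2` are odd and of the form `u y ^ e` with `|y| ≤ μ ^ κ`. (For
`κ < 1 / 2`, `β = 0` there is at most one.)

(2) For every `η > 0` and all large `μ` at most `η |Z| / log μ` elements of such a cycle are odd and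
of the form `u y ^ e` with `|y| ≤ μ ^ κ`.

(3) Let `κ < 1` and `η > 0`. All but finitely many cycles `Z` of `T_{a,b}`, and so of `T_3` and of
`T_5`, have at most `η |Z| / log μ` odd elements of the form `u y ^ e` with `|y| ≤ μ ^ κ`, where `μ`
is the least absolute value of an element of `Z`. For example all but finitely many cycles of `T_3`
and of `T_5` have at most `η |Z| / log μ` odd elements whose part prime to `S` is at most `μ ^ κ`,
and at most `η |Z| / log μ` odd squares up to `μ ^ (2 κ)`.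

Method. Let `x_0, ..., x_n` be successive terms, `X_i = 2^i a^(o(i)) x_i` with `o(i)` the number of
odd terms among `x_i, ..., x_(n-1)`. If the terms are large then the `X_i` are nearly equal, and
`X_i = a_i Z_i ^ e` with `a_i` in a finite set and `Z_i` an integer whose part prime to `S` is at
most `Y`. The subspace theorem for the forms `a_i^(1/e) Z_i - a_0^(1/e) Z_0` gives a relation with
bounded coefficients between `k + 1` of the `Z_i`. If the indices are far apart then this
contradicts the powers of `2` which divide the `Z_i`; in a window of bounded length it contradicts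
the linear independence of the functions `(1 + c_i t)^(1/e)` (for `e = 1` Ridout's theorem for
binary forms is used instead). Hence more than `k ^ 2` such terms force the trajectory to come down
to `C |b| Y^(1 + 1/k) exp (ε (n + log |x_0|))`.
-/

set_option autoImplicit false

namespace Pool.Agent.Results.MP_dee342_nt.PowersInCycles

open Finset Pool.Agent.U773.SP Pool.Agent.U773.PW

open scoped Classical

theorem result :
    (∀ (a : ℕ) (S : Finset ℕ) (e : ℕ) (κ β : ℝ), a % 2 = 1 → 1 ≤ e → 0 ≤ κ → 0 ≤ β → κ + β < 1 →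
      (∀ A : ℝ, 0 < A → ∃ μ₀ : ℝ, 1 < μ₀ ∧ ∀ (b : ℤ) (Z : Finset ℤ) (μ : ℝ), b % 2 = 1 →
        IsCyc (Tm a b) Z → μ₀ ≤ μ → |(b : ℝ)| ≤ μ ^ β → (∀ x ∈ Z, μ ≤ |(x : ℝ)|) →
        ∀ x ∈ Z, ∀ n : ℕ, (n : ℝ) ≤ A * Real.log μ →
          ((range (n + 1)).filter (fun i => (Tm a b)^[i] x % 2 = 1 ∧
            Pw S e (μ ^ κ) ((Tm a b)^[i] x))).card ≤ (⌊κ / (1 - κ - β)⌋₊ + 1) ^ 2) ∧
      (∀ η : ℝ, 0 < η → ∃ μ₀ : ℝ, 1 < μ₀ ∧ ∀ (b : ℤ) (Z : Finset ℤ) (μ : ℝ), b % 2 = 1 →
        IsCyc (Tm a b) Z → μ₀ ≤ μ → |(b : ℝ)| ≤ μ ^ β → (∀ x ∈ Z, μ ≤ |(x : ℝ)|) →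
        ((Z.filter (fun x => x % 2 = 1 ∧ Pw S e (μ ^ κ) x)).card : ℝ) ≤
          η * Z.card / Real.log μ)) ∧
    (∀ (a : ℕ) (b : ℤ) (S : Finset ℕ) (e : ℕ) (κ η : ℝ), a % 2 = 1 → b % 2 = 1 → 1 ≤ e →
      0 ≤ κ → κ < 1 → 0 < η →
      {Z : Finset ℤ | IsCyc (Tm a b) Z ∧ ∃ x₀ ∈ Z, (∀ x ∈ Z, |x₀| ≤ |x|) ∧
        η * Z.card < ((Z.filter (fun x => x % 2 = 1 ∧ Pw S e (|(x₀ : ℝ)| ^ κ) x)).card : ℝ) *
          Real.log |(x₀ : ℝ)|}.Finite) := by
  refine ⟨?_, ?_⟩
  · intro a S e κ β ha he hκ hβ hκβ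
    refine ⟨?_, ?_⟩
    · intro A hA
      have hk2 : κ < (1 - κ - β) * ((⌊κ / (1 - κ - β)⌋₊ + 1 : ℕ) : ℝ) := by
        have h1 := Nat.lt_floor_add_one (κ / (1 - κ - β))
        rw [div_lt_iff₀ (by linarith)] at h1
        push_cast
        linarith
      obtain ⟨μ₀, h1, h2⟩ := window_T a ha S e (⌊κ / (1 - κ - β)⌋₊ + 1) he (by omega) κ β A hκ hβ
        hk2 hA
      refine ⟨μ₀, h1, ?_⟩
      intro b Z μ hb hZ hμ hbμ hmin x hx n hn
      refine le_trans (le_of_eq (card_inst _ _ _ _)) (h2 b x n μ hb hμ hbμ hn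
        (fun i _ => hmin _ (cyc_map hZ hx i)))
    · intro η hη
      obtain ⟨μ₀, h1, h2⟩ := cycle_T a ha S e he κ β η hκ hβ hκβ hη
      refine ⟨μ₀, h1, ?_⟩
      intro b Z μ hb hZ hμ hbμ hmin
      rw [le_div_iff₀ (Real.log_pos (by linarith))]
      exact le_trans (le_of_eq (congrArg (fun y => y * Real.log μ) (card_inst' _ _ _ _)))
        (h2 b Z μ hb hZ hμ hbμ hmin)
  · intro a b S e κ η ha hb he hκ hκ1 hη
    refine (finite_T a ha b hb S e he κ η hκ hκ1 hη).subset ?_
    rintro Z ⟨h1, x₀, h2, h3, h4⟩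
    exact ⟨h1, x₀, h2, h3, h4.trans_le (le_of_eq
      (congrArg (fun y => y * Real.log |(x₀ : ℝ)|) (card_inst' _ _ _ _)))⟩

end Pool.Agent.Results.MP_dee342_nt.PowersInCycles
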