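import Pool.Agent.U405.RS.F
import Pool.Agent.U405.RS.F2
import Pool.Agent.Results.MP_dee342_nt.CyclesBelowEntropy
import Pool.Agent.Results.MP_dee342_nt.IntervalLengths

/-!
# Lengths and largest elements of cycles of `3x+1` maps avoid values of `f` at thin sets of arguments

Let `f` be a positive multiplicative function of at most polynomial growth which for each `a ≥ 1` is injective at the powers
`p ^ a` of the large primes and at most `M p ^ a` there; for example Euler's function or the sum of the divisors. Let `α > 0`, `d ≥ 1` and `κ ≥ 0`. (1) No cycle `Z` of the `3x+1` map on the integers satisfies `||Z| - α f(v)^d| ≤ f(v)^κ`, with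
`e = 12 d / 13 + κ`. (2) Let `a ≥ 3` and `b` be odd and `H(a) < 1` the entropy of `log 2 / log a`. There is `η < H(a)`, depending on
`a` only, such that no cycle `Z` of `T_{a,b}` satisfies `|max |Z| - α f(v)^d| ≤ f(v)^κ`, with `e = d η + κ`. Both for almost all `v`
(with a saving of any power of the logarithm) in each of these sets:

* the values of any integer polynomial without repeated roots, of degree `< 1 / e`;
* the shifted primes `p + a`, `a` any integer, if `e < 1`;
* the intervals `(x, x + y]`, `x^τ ≤ y ≤ x`, for every `τ > e`, `τ ≤ 1`.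

For instance no cycle of the `3x+1` map has length `φ(p - 1)`, for almost all primes `p`.

Proof. Own tool `Pool.Agent.U405.RS`: let `S` be a set of at least `N^(θ + δ)` integers up to `N` with at most
`B g^ω(k) |S| / k` multiples of `k` for every `k ≤ N^δ`, and let `W` have at most `C X^θ` elements up to `X`. Then `f(m) ∈ W` for at
most `|S| / (log N)^U` of the `m` in `S`. For this write `m = k w` with `k` composed of the primes `≤ z = N^(1 / J)`, `J` a small
multiple of `log log N`. By Rankin's method with the weights `g^ω(k)` one has `k ≤ N^η` for most `m`; and `w` has at most `J`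
prime factors and exponents `≤ J`, so that `w` is determined by `f(w)` up to `(J τ(f(w)) + 1)^J = N^o(1)` possibilities. The three
kinds of sets satisfy the hypothesis: for polynomials because `P` has at most `g` zeros modulo every prime power (lifting of
zeros by the identity `U P + V P' = R`), for shifted primes by the Brun-Titchmarsh inequality (library). The lengths and
the cycles are counted by the starting theorems `IntervalLengths` and `CyclesBelowEntropy` of this problem.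
-/

set_option autoImplicit false

namespace Pool.Agent.Results.MP_dee342_nt.SparseArguments

open Finset
open Pool.Agent.N733.TG (Expanding expanding_pow)
open Pool.Agent.U405.RS (PM Sparse sparse_set sparse_set' examples)

/-- The map `T_{a,b}` on the integers. -/
def T (a b x : ℤ) : ℤ := if x % 2 = 0 then x / 2 else (a * x + b) / 2

/-- `Z` is a cycle (periodic orbit) of `T_{a,b}`. -/
def IsCycle (a b : ℤ) (Z : Finset ℤ) : Prop :=
  ∃ (x : ℤ) (p : ℕ), 1 ≤ p ∧ (T a b)^[p] x = x ∧ Z = (Finset.range p).image fun i => (T a b)^[i] x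

/-- the largest absolute value of an element of `Z` -/
def top (Z : Finset ℤ) : ℕ := Z.sup Int.natAbs

/-- the entropy of `log 2 / log a` -/
noncomputable def entropy (a : ℕ) : ℝ := Real.binEntropy (Real.log 2 / Real.log a) / Real.log 2

lemma le_top {Z : Finset ℤ} {x : ℤ} (hx : x ∈ Z) : |(x : ℝ)| ≤ top Z := by
  have h : x.natAbs ≤ top Z := Finset.le_sup (f := Int.natAbs) hx
  have h2 : (x.natAbs : ℝ) ≤ top Z := by exact_mod_cast h
  rwa [Nat.cast_natAbs, Int.cast_abs] at h2

/-- the cycles in `[-X, X]` are finite in number -/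
lemma cycles_finite (f : ℤ → ℤ) (X : ℝ) :
    {c : Finset ℤ | CyclesBelowEntropy.IsCycle f c ∧ ∀ x ∈ c, |(x : ℝ)| ≤ X}.Finite := by
  apply (Finset.finite_toSet (Finset.Icc (-⌊X⌋) ⌊X⌋).powerset).subset
  intro c hc
  rw [Finset.mem_coe, Finset.mem_powerset]
  intro x hx
  have h := abs_le.1 (hc.2 x hx)
  rw [Finset.mem_Icc]
  refine ⟨?_, Int.le_floor.2 h.2⟩
  have : (-x : ℤ) ≤ ⌊X⌋ := Int.le_floor.2 (by push_cast; linarith [h.1])
  omega

open Classical in
lemma lengths_count : ∃ C : ℝ, ∀ X : ℕ, 1 ≤ X →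
    (((Ioc 0 X).filter (fun t => t ∈ {p : ℕ | ∃ Z : Finset ℤ, IsCycle 3 1 Z ∧ Z.card = p})).card : ℝ) ≤
      C * (X : ℝ) ^ ((12 : ℝ) / 13) := by
  obtain ⟨C, hC⟩ := IntervalLengths.result
  refine ⟨C, fun X hX => le_trans ?_ (hC 1 X hX)⟩
  have hfin : {p : ℕ | 1 ≤ p ∧ p < 1 + X ∧ ∃ Z : Finset ℤ, IntervalLengths.IsCycle Z ∧ Z.card = p}.Finite :=
    (Set.finite_Iio (1 + X)).subset (fun p hp => hp.2.1)
  have hsub : (((Ioc 0 X).filter (fun t => t ∈ {p : ℕ | ∃ Z : Finset ℤ, IsCycle 3 1 Z ∧ Z.card = p}) : Finset ℕ) :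
      Set ℕ) ⊆ {p : ℕ | 1 ≤ p ∧ p < 1 + X ∧ ∃ Z : Finset ℤ, IntervalLengths.IsCycle Z ∧ Z.card = p} := by
    intro p hp
    rw [mem_coe, mem_filter, mem_Ioc] at hp
    exact ⟨by omega, by omega, hp.2⟩
  have h2 := Set.ncard_le_ncard hsub hfin
  rw [Set.ncard_coe_finset] at h2
  exact_mod_cast h2

/-- no cycle of the `3x+1` map on the integers has a length `p` with `|p - G v| ≤ v ^ κ` -/
def NoLength (G : ℕ → ℝ) (κ : ℝ) (v : ℕ) : Prop :=
  ∀ Z : Finset ℤ, IsCycle 3 1 Z → ¬ |(Z.card : ℝ) - G v| ≤ (v : ℝ) ^ κ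

/-- no cycle of `T_{a,b}` has a largest absolute value `t` with `|t - G v| ≤ v ^ κ` -/
def NoTop (a b : ℤ) (G : ℕ → ℝ) (κ : ℝ) (v : ℕ) : Prop :=
  ∀ Z : Finset ℤ, IsCycle a b Z → ¬ |(top Z : ℝ) - G v| ≤ (v : ℝ) ^ κ

/-- **Cycles and the values of multiplicative functions at thin sets of arguments.** Let `f` be in the class `PM`, `G` with steps
`≥ const > 0` and growth at most `v^d`, `κ ≥ 0` and `U` any. (1) The property that no cycle `Z` of the `3x+1` map on the integers
satisfies `||Z| - G v| ≤ v^κ` holds in the sense `Sparse e f`, `e = 12 d / 13 + κ`. (2) Let `a ≥ 3` be odd and `H(a)` the entropy of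
`log 2 / log a`. There is `η < H(a) < 1`, depending on `a` only, such that for all odd `b` the property that no cycle `Z` of
`T_{a,b}` satisfies `|max |Z| - G v| ≤ v^κ` holds in the sense `Sparse e f`, `e = d η + κ`. (`Sparse e f`: with a saving of `(log x)^U` it holds at `f v` for almost all `v` among the positive values of every integer
polynomial without repeated roots of degree `< 1 / e`; among the shifted primes `p + a` for every `a`, if `e < 1`; and in all
intervals `(x, x + y]`, `x^τ ≤ y ≤ x`, `e < τ ≤ 1`.) Euler's function and the sum of the divisors are in the class `PM`, and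
`α v^d` with `α > 0`, `d ≥ 1` is an example of `G`. -/
theorem result :
    (∀ f : ℕ → ℕ, PM f → ∀ (G : ℕ → ℝ) (d : ℝ), Expanding G d → ∀ κ : ℝ, 0 ≤ κ → ∀ U : ℕ,
      Sparse (d * (12 / 13) + κ) f (NoLength G κ) U) ∧
    (∀ a : ℕ, 3 ≤ a → a % 2 = 1 → ∃ η : ℝ, 0 < η ∧ η < entropy a ∧ entropy a < 1 ∧ ∀ b : ℤ, b % 2 = 1 →
      ∀ f : ℕ → ℕ, PM f → ∀ (G : ℕ → ℝ) (d : ℝ), Expanding G d → ∀ κ : ℝ, 0 ≤ κ → ∀ U : ℕ,
      Sparse (d * η + κ) f (NoTop a b G κ) U) ∧
    (PM Nat.totient ∧ PM (fun m => ∑ d ∈ m.divisors, d) ∧ PM (fun m => m)) ∧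
    ∀ α d : ℝ, 0 < α → 1 ≤ d → Expanding (fun v => α * (v : ℝ) ^ d) d := by
  refine ⟨fun f hf G d hG κ hκ U => ?_, fun a ha ha2 => ?_, examples, fun α d hα hd => expanding_pow hα hd⟩
  · obtain ⟨C, hC⟩ := lengths_count
    refine (sparse_set {p : ℕ | ∃ Z : Finset ℤ, IsCycle 3 1 Z ∧ Z.card = p} (fun p => (p : ℝ)) hf hG (s := 12 / 13) (κ := κ)
      (by norm_num) hκ (fun ε hε => ⟨|C| * 2, fun X hX => ?_⟩) U).imp (fun v hv Z hZ => hv _ ⟨Z, hZ, rfl⟩)
    classical
    obtain ⟨M, hM⟩ : ∃ M : ℕ, M = ⌊X⌋₊ := ⟨_, rfl⟩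
    have hM1 : 1 ≤ M := by
      rw [hM]
      exact Nat.le_floor (by simpa using hX)
    have hMX : (M : ℝ) ≤ X := by
      rw [hM]
      exact Nat.floor_le (by linarith)
    have hsub : {t : ℕ | t ∈ {p : ℕ | ∃ Z : Finset ℤ, IsCycle 3 1 Z ∧ Z.card = p} ∧ (t : ℝ) ≤ X} ⊆
        ((insert 0 ((Ioc 0 M).filter (fun t => t ∈ {p : ℕ | ∃ Z : Finset ℤ, IsCycle 3 1 Z ∧ Z.card = p})) : Finset ℕ) :
          Set ℕ) := by
      rintro t ⟨h1, h2⟩
      rw [Finset.mem_coe, Finset.mem_insert]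
      rcases Nat.eq_zero_or_pos t with h3 | h3
      · exact Or.inl h3
      · right
        rw [mem_filter, mem_Ioc]
        refine ⟨⟨h3, ?_⟩, h1⟩
        rw [hM]
        exact Nat.le_floor h2
    refine ⟨(Finset.finite_toSet _).subset hsub, ?_⟩
    have h1 := Set.ncard_le_ncard hsub (Finset.finite_toSet _)
    rw [Set.ncard_coe_finset] at h1
    have h2 := h1.trans (Finset.card_insert_le _ _)
    have h3 : (({t : ℕ | t ∈ {p : ℕ | ∃ Z : Finset ℤ, IsCycle 3 1 Z ∧ Z.card = p} ∧ (t : ℝ) ≤ X}.ncard : ℕ) : ℝ) ≤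
        (((Ioc 0 M).filter (fun t => t ∈ {p : ℕ | ∃ Z : Finset ℤ, IsCycle 3 1 Z ∧ Z.card = p})).card : ℝ) + 1 := by
      exact_mod_cast h2
    have h4 := hC M hM1
    have hM1' : (1 : ℝ) ≤ M := by exact_mod_cast hM1
    have h5 : (M : ℝ) ^ ((12 : ℝ) / 13) ≤ X ^ (12 / 13 + ε) :=
      (Real.rpow_le_rpow_of_exponent_le hM1' (by linarith)).trans
        (Real.rpow_le_rpow (by linarith) hMX (by positivity))
    have h6 : 1 ≤ X ^ (12 / 13 + ε) := Real.one_le_rpow hX (by positivity)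
    have hC1 : 1 ≤ |C| := by
      have h7 := hC 1 le_rfl
      rw [Nat.cast_one, Real.one_rpow, mul_one] at h7
      have h8 : (1 : ℝ) ≤ (((Ioc 0 1).filter (fun t => t ∈ {p : ℕ | ∃ Z : Finset ℤ, IsCycle 3 1 Z ∧ Z.card = p})).card : ℝ) := by
        have h9 : 1 ∈ (Ioc 0 1).filter (fun t => t ∈ {p : ℕ | ∃ Z : Finset ℤ, IsCycle 3 1 Z ∧ Z.card = p}) := by
          rw [mem_filter, mem_Ioc]
          refine ⟨⟨by norm_num, le_rfl⟩, {0}, ⟨0, 1, le_rfl, by simp [T], by simp⟩, by simp⟩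
        exact_mod_cast Finset.card_pos.2 ⟨1, h9⟩
      exact (h8.trans h7).trans (le_abs_self C)
    calc (({t : ℕ | t ∈ {p : ℕ | ∃ Z : Finset ℤ, IsCycle 3 1 Z ∧ Z.card = p} ∧ (t : ℝ) ≤ X}.ncard : ℕ) : ℝ)
        ≤ C * (M : ℝ) ^ ((12 : ℝ) / 13) + 1 := by linarith
      _ ≤ |C| * X ^ (12 / 13 + ε) + |C| * X ^ (12 / 13 + ε) := by
          apply add_le_add
          · exact (mul_le_mul_of_nonneg_right (le_abs_self C) (by positivity)).trans
              (mul_le_mul_of_nonneg_left h5 (abs_nonneg C))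
          · nlinarith
      _ = |C| * 2 * X ^ (12 / 13 + ε) := by ring
  · obtain ⟨η, hη0, hη, hH, hh⟩ := CyclesBelowEntropy.result a ha ha2
    refine ⟨η, hη0, hη, hH, fun b hb f hf G d hG κ hκ U => ?_⟩
    obtain ⟨C, hC0, hC⟩ := hh b hb
    refine (sparse_set {Z : Finset ℤ | IsCycle a b Z} (fun Z => (top Z : ℝ)) hf hG (s := η) (κ := κ)
      hη0.le hκ (fun ε hε => ⟨C, fun X hX => by
        have hsub : {Z : Finset ℤ | Z ∈ {Z : Finset ℤ | IsCycle a b Z} ∧ (top Z : ℝ) ≤ X} ⊆
            {c : Finset ℤ | CyclesBelowEntropy.IsCycle (CyclesBelowEntropy.T a b) c ∧ ∀ x ∈ c, |(x : ℝ)| ≤ X} := by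
          rintro Z ⟨h2, h3⟩
          refine ⟨h2, fun x hx => (le_top hx).trans h3⟩
        have hfin := cycles_finite (CyclesBelowEntropy.T a b) X
        refine ⟨hfin.subset hsub, ?_⟩
        have h4 := Set.ncard_le_ncard hsub hfin
        have h5 : (({Z : Finset ℤ | Z ∈ {Z : Finset ℤ | IsCycle a b Z} ∧ (top Z : ℝ) ≤ X}.ncard : ℕ) : ℝ) ≤
            ({c : Finset ℤ | CyclesBelowEntropy.IsCycle (CyclesBelowEntropy.T a b) c ∧
              ∀ x ∈ c, |(x : ℝ)| ≤ X}.ncard : ℝ) := by exact_mod_cast h4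
        refine h5.trans ((hC X hX).trans ?_)
        exact mul_le_mul_of_nonneg_left (Real.rpow_le_rpow_of_exponent_le hX (by linarith)) hC0.le⟩) U).imp
      (fun v hv Z hZ => hv Z hZ)

end Pool.Agent.Results.MP_dee342_nt.SparseArguments
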