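import Pool.Agent.U339.SA.Maps

set_option autoImplicit false

/-!
# The cycles of the maps `T_{a,b}` for all `a`, `b` composed of finitely many primes

`T_{a,b} x = (a x + b) / 2` for odd `x` and `x / 2` for even `x`. Let `S` be a finite set of primes and
`ε > 0`. There is ONE constant `K` for all odd `a ≥ 3` composed of the primes in `S` (so for all the maps
`5x+1`, `25x+1`, `15x+1`, ... at once) and all `p ≥ 1`:

* The part composed of `S` of the denominator of a rational number `x` with `T_{a,1}^p x = x` is at most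
  `K a^(ε p)`.
* At most `K a^(ε p) D` rational `x` with `T_{a,1}^p x = x` have a denominator whose part prime to `S` is at
  most `D`. For `S` the set of the primes of `a` and `D = 1` these are the integers of the problem.
* The maps `T_{a,b}`, `b` composed of `S`, have together at most `K a^(ε p)` periodic points of period `p`
  prime to `b`.
* `p log a / log b` tends to infinity with `b`, uniformly over all primitive cycles of all these
  maps `T_{a,b}`.
* For each odd `a ≥ 3`: for all but `K 2^((1 - ε/2) p)` of the `2^p` rational periodic points the part of the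
  denominator which is prime to `S` is at least `2^((1 - ε) p)`.

Method. The denominator divides `2^p - a^o`. Ridout's theorem (starting library, `W180.RR.ridout`), applied
to all the decompositions of `S` at once, bounds the part of `2^p - u` composed of `S` and `2^p - u` itself,
uniformly in the odd `u` composed of `S`. The second bound gives an element of absolute value at most
`K p a^(ε p)` in every cycle.
-/

namespace Pool.Agent.Results.MP_dee342_nt.UniformSIntegralCycles

/-- `d` is composed of the primes in `S`. -/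
def Composed (S : Finset ℕ) (d : ℕ) : Prop := ∀ q : ℕ, q.Prime → q ∣ d → q ∈ S

/-- `a ≥ 3` is odd and composed of the primes in `S`. -/
def Multiplier (S : Finset ℕ) (a : ℕ) : Prop := Odd a ∧ 3 ≤ a ∧ Composed S a

/-- The map `T_{a,b}` on the integers. -/
def T (a b n : ℤ) : ℤ := if Even n then n / 2 else (a * n + b) / 2

/-- The map `T_{a,1}` on the rational numbers (used for odd denominators): `x / 2` if the numerator of
`x` is even, and `(a x + 1) / 2` if it is odd. -/
def TQ (a : ℕ) (x : ℚ) : ℚ := if Even x.num then x / 2 else (a * x + 1) / 2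

/-- The rational numbers `x` with odd denominator and `T_{a,1}^p x = x`. -/
def periodic (a p : ℕ) : Set ℚ := {x | Odd x.den ∧ (TQ a)^[p] x = x}

/-- The part of the denominator of `x` which is prime to `S`: the product of its prime powers
`q ^ (v_q)`, `q` not in `S`. -/
def freeDen (S : Finset ℕ) (x : ℚ) : ℕ :=
  ∏ q ∈ x.den.primeFactors \ S, q ^ x.den.factorization q

/-- The pairs `(n, b)`, `b ≥ 1` odd and composed of the primes in `S`, such that `n` is prime to `b` and
`T_{a,b}^p n = n`. -/
def primitivePoints (S : Finset ℕ) (a p : ℕ) : Set (ℤ × ℕ) :=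
  {t | Composed S t.2 ∧ Odd t.2 ∧ IsCoprime t.1 (t.2 : ℤ) ∧ (T a t.2)^[p] t.1 = t.1}

/-- **The cycles of the maps `T_{a,b}`, `a` and `b` composed of the primes in `S`.** Let `S` be a finite set.
(1) For every `ε > 0` there is `K` such that for all odd `a ≥ 3` composed of the primes in `S` and all
`p ≥ 1`: (i) the denominator of each rational `x` (with odd denominator) with `T_{a,1}^p x = x` is at most
`K a^(ε p)` times its part prime to `S`; (ii) for every `D ≥ 1` at most `K a^(ε p) D` of these `x` have a
denominator whose part prime to `S` is at most `D`; (iii) the maps `T_{a,b}`, `b` composed of the primes in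
`S`, have together at most `K a^(ε p)` periodic points `n = T_{a,b}^p n` prime to `b`.
(2) For every `A` there is `b₀` such that for all `a`, `b` composed of the primes in `S`, `a ≥ 3`, `b ≥ b₀`,
and all `n` prime to `b` and `p ≥ 1` with `T_{a,b}^p n = n`: `p log a ≥ A log b`.
(3) For all odd `a ≥ 3` and all `ε > 0` there is `K` such that for all `p ≥ 1` there are exactly `2^p`
numbers `x` as in (i), and for all but `K 2^((1 - ε/2) p)` of them the part prime to `S` of the
denominator is at least `2^((1 - ε) p)`. -/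
theorem result (S : Finset ℕ) :
    (∀ ε : ℝ, 0 < ε → ∃ K : ℝ, ∀ a : ℕ, Multiplier S a → ∀ p : ℕ, 1 ≤ p →
      (∀ x ∈ periodic a p, (x.den : ℝ) ≤ K * (a : ℝ) ^ (ε * p) * freeDen S x) ∧
      (∀ D : ℝ, 1 ≤ D →
        ({x ∈ periodic a p | (freeDen S x : ℝ) ≤ D}.ncard : ℝ) ≤ K * (a : ℝ) ^ (ε * p) * D) ∧
      (primitivePoints S a p).Finite ∧
      ((primitivePoints S a p).ncard : ℝ) ≤ K * (a : ℝ) ^ (ε * p)) ∧
    (∀ A : ℝ, ∃ b₀ : ℕ, ∀ a : ℕ, Multiplier S a → ∀ b : ℕ, b₀ ≤ b → Composed S b → Odd b →
      ∀ (n : ℤ) (p : ℕ), IsCoprime n (b : ℤ) → 1 ≤ p → (T a b)^[p] n = n →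
        A * Real.log b ≤ p * Real.log a) ∧
    (∀ a : ℕ, Odd a → 3 ≤ a → ∀ ε : ℝ, 0 < ε → ∃ K : ℝ, ∀ p : ℕ, 1 ≤ p →
      (periodic a p).ncard = 2 ^ p ∧
      ({x ∈ periodic a p | (freeDen S x : ℝ) < (2 : ℝ) ^ ((1 - ε) * p)}.ncard : ℝ) ≤
        K * (2 : ℝ) ^ ((1 - ε / 2) * p)) := by
  classical
  have hgood : ∀ a : ℕ, Multiplier S a → Pool.Agent.U339.SA.Good (Pool.Agent.U339.SA.pr S) a :=
    fun a ha => Pool.Agent.U339.SA.good_of ha.1 ha.2.1 ha.2.2
  have hset : ∀ (a : ℕ), Odd a → ∀ (p : ℕ) (hp : 1 ≤ p),
      periodic a p = ((Pool.Agent.U339.SA.per a hp : Finset ℚ) : Set ℚ) := by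
    intro a ha p hp
    ext x
    rw [Finset.mem_coe, Pool.Agent.U339.SA.mem_per ha]
    rfl
  have hsub : ∀ (a : ℕ), Odd a → ∀ (p : ℕ) (hp : 1 ≤ p) (P : ℚ → Prop) [DecidablePred P],
      {x ∈ periodic a p | P x} = (((Pool.Agent.U339.SA.per a hp).filter P : Finset ℚ) : Set ℚ) := by
    intro a ha p hp P _
    ext x
    rw [Finset.mem_coe, Finset.mem_filter, Pool.Agent.U339.SA.mem_per ha]
    rfl
  refine ⟨?_, ?_, ?_⟩
  · intro ε hε
    obtain ⟨K1, hK1, h1⟩ := Pool.Agent.U339.SA.den_bound S ε hε
    obtain ⟨K2, hK2, h2⟩ := Pool.Agent.U339.SA.count S ε hε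
    obtain ⟨K3, hK3, h3⟩ := Pool.Agent.U339.SA.maps S ε hε
    set K := max K1 (max K2 K3) with hK
    have e1 : K1 ≤ K := le_max_left _ _
    have e2 : K2 ≤ K := (le_max_left _ _).trans (le_max_right _ _)
    have e3 : K3 ≤ K := (le_max_right _ _).trans (le_max_right _ _)
    refine ⟨K, fun a ha p hp => ⟨?_, ?_, ?_, ?_⟩⟩
    · intro x hx
      refine (h1 a (hgood a ha) p hp x hx).trans ?_
      apply mul_le_mul_of_nonneg_right _ (Nat.cast_nonneg _)
      exact mul_le_mul_of_nonneg_right e1 (by positivity)
    · intro D hD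
      have h4 := h2 a (hgood a ha) p hp D hD
      rw [hsub a ha.1 p hp, Set.ncard_coe_finset]
      refine h4.trans ?_
      apply mul_le_mul_of_nonneg_right _ (by linarith)
      exact mul_le_mul_of_nonneg_right e2 (by positivity)
    · exact (h3 a (hgood a ha) p hp).1
    · exact (h3 a (hgood a ha) p hp).2.trans (mul_le_mul_of_nonneg_right e3 (by positivity))
  · intro A
    obtain ⟨b0, h⟩ := Pool.Agent.U339.SA.long_cycles S A
    exact ⟨b0, fun a ha b hb hS hodd n p hc hp hper => h a (hgood a ha) b hb hS hodd n p hc hp hper⟩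
  · intro a ha ha3 ε hε
    obtain ⟨K, -, h⟩ := Pool.Agent.U339.SA.typical S ha ha3 ε hε
    refine ⟨K, fun p hp => ⟨?_, ?_⟩⟩
    · rw [hset a ha p hp, Set.ncard_coe_finset, Pool.Agent.U339.SA.card_per ha]
    · rw [hsub a ha p hp, Set.ncard_coe_finset]
      exact h p hp

end Pool.Agent.Results.MP_dee342_nt.UniformSIntegralCycles
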